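import Pool.Agent.TH581.HH.Stm

/-!
Approximation of a convex body by polytopes (job HH-APA).
-/

set_option autoImplicit false

open Set
open scoped Pointwise

namespace Pool.Agent.TH873.HH

open Pool.Agent.TH581.HH

/-- the support function -/
noncomputable def hs {n : ℕ} (K : Set (E n)) (ν : E n) : ℝ := sSup ((fun x => inner ℝ ν x) '' K)

theorem le_hs {n : ℕ} {K : Set (E n)} (hK : IsCompact K) (ν : E n) {x : E n} (hx : x ∈ K) :
    inner ℝ ν x ≤ hs K ν := by
  have hc : Continuous (fun x : E n => inner ℝ ν x) := by fun_prop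
  exact le_csSup (hK.image hc).bddAbove ⟨x, hx, rfl⟩

theorem exists_normal {n : ℕ} {K : Set (E n)} (hK : IsCompact K) (hc : Convex ℝ K)
    (h0 : (0 : E n) ∈ K) {p : E n} (hp : p ∉ K) : ∃ ν : E n, ‖ν‖ = 1 ∧ hs K ν < inner ℝ ν p := by
  obtain ⟨f, u, h1, h2⟩ := geometric_hahn_banach_closed_point hc hK.isClosed hp
  set v := (InnerProductSpace.toDual ℝ (E n)).symm f with hv
  have hf : ∀ x, f x = inner ℝ v x := by
    intro x
    rw [hv, InnerProductSpace.toDual_symm_apply]
  have hu : 0 < u := by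
    have := h1 0 h0
    rwa [map_zero] at this
  have hv0 : v ≠ 0 := by
    intro h
    have := hf p
    rw [h, inner_zero_left] at this
    linarith
  have hn : 0 < ‖v‖ := norm_pos_iff.2 hv0
  refine ⟨‖v‖⁻¹ • v, ?_, ?_⟩
  · rw [norm_smul, norm_inv, norm_norm, inv_mul_cancel₀ hn.ne']
  · have hle : hs K (‖v‖⁻¹ • v) ≤ ‖v‖⁻¹ * u := by
      refine csSup_le ⟨_, 0, h0, rfl⟩ ?_
      rintro _ ⟨x, hx, rfl⟩
      simp only [inner_smul_left, RCLike.conj_to_real]
      rw [← hf]
      exact mul_le_mul_of_nonneg_left (h1 x hx).le (inv_nonneg.2 hn.le)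
    refine lt_of_le_of_lt hle ?_
    simp only [inner_smul_left, RCLike.conj_to_real]
    rw [← hf]
    exact mul_lt_mul_of_pos_left h2 (inv_pos.2 hn)

theorem t_apa : S_APA := by
  classical
  intro n K hK hc h0 ε hε
  have h0K : (0 : E n) ∈ K := interior_subset h0
  set Q : Set (E n) := (1 + ε) • K with hQ
  have hQc : IsCompact Q := hK.smul (1 + ε)
  have hKQ : K ⊆ interior Q := by
    have h := hc.subset_interior_image_homothety_of_one_lt h0 (1 + ε) (by linarith)
    have he : AffineMap.homothety (0 : E n) (1 + ε) '' K = Q := by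
      ext x
      simp [hQ, Set.mem_smul_set, AffineMap.homothety_apply, add_smul]
    rwa [he] at h
  have hfr : IsCompact (frontier Q) := hQc.of_isClosed_subset isClosed_frontier
    hQc.isClosed.frontier_subset
  have hcov : frontier Q ⊆ ⋃ ν ∈ Metric.sphere (0 : E n) 1, {x | hs K ν < inner ℝ ν x} := by
    intro p hp
    have hpK : p ∉ K := fun h => hp.2 (hKQ h)
    obtain ⟨ν, h1, h2⟩ := exists_normal hK hc h0K hpK
    refine mem_iUnion₂.2 ⟨ν, ?_, h2⟩
    rw [mem_sphere_zero_iff_norm]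
    exact h1
  obtain ⟨b', hb', hfin, hcov'⟩ := hfr.elim_finite_subcover_image
    (fun ν _ => isOpen_lt continuous_const (by fun_prop)) hcov
  let t : Finset (E n) := hfin.toFinset
  have ht : ∀ i : Fin t.card, (t.equivFin.symm i : E n) ∈ b' := fun i =>
    hfin.mem_toFinset.1 (t.equivFin.symm i).2
  let ν : Fin t.card → E n := fun i => (t.equivFin.symm i : E n)
  have hsurj : ∀ v ∈ b', ∃ i, ν i = v := by
    intro v hv
    refine ⟨t.equivFin ⟨v, hfin.mem_toFinset.2 hv⟩, ?_⟩
    simp [ν]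
  have hKP : K ⊆ Poly ν (fun i => hs K (ν i)) := fun x hx i => le_hs hK _ hx
  have hdis : ∀ x ∈ Poly ν (fun i => hs K (ν i)), x ∉ frontier Q := by
    intro x hx hxf
    obtain ⟨v, hv, hxv⟩ := mem_iUnion₂.1 (hcov' hxf)
    obtain ⟨i, rfl⟩ := hsurj v hv
    exact absurd (hx i) (not_le.2 hxv)
  have hconv : Convex ℝ (Poly ν (fun i => hs K (ν i))) := by
    have : Poly ν (fun i => hs K (ν i)) = ⋂ i, {x | inner ℝ (ν i) x ≤ hs K (ν i)} := by
      ext x
      simp [Pool.Agent.TH581.HH.Poly]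
    rw [this]
    refine convex_iInter fun i => ?_
    exact convex_halfSpace_le (f := fun x => inner ℝ (ν i) x)
      ⟨fun x y => inner_add_right _ _ _, fun c x => by simp [inner_smul_right]⟩ _
  have hclosed : IsClosed (Poly ν (fun i => hs K (ν i))) := by
    have : Poly ν (fun i => hs K (ν i)) = ⋂ i, {x | inner ℝ (ν i) x ≤ hs K (ν i)} := by
      ext x
      simp [Pool.Agent.TH581.HH.Poly]
    rw [this]
    exact isClosed_iInter fun i => isClosed_le (by fun_prop) continuous_const
  have hPQ : Poly ν (fun i => hs K (ν i)) ⊆ Q := by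
    intro x hx
    by_contra hxQ
    have hsub : Poly ν (fun i => hs K (ν i)) ⊆ interior Q ∪ Qᶜ := by
      intro y hy
      by_cases hyQ : y ∈ Q
      · left
        by_contra hyi
        exact hdis y hy ⟨subset_closure hyQ, hyi⟩
      · exact Or.inr hyQ
    obtain ⟨y, _, hy1, hy2⟩ := hconv.isPreconnected (interior Q) Qᶜ isOpen_interior
      hQc.isClosed.isOpen_compl hsub ⟨0, hKP h0K, hKQ h0K⟩ ⟨x, hx, hxQ⟩
    exact hy2 (interior_subset hy1)
  refine ⟨t.card, ν, fun i => hs K (ν i), ⟨?_, ?_, ?_, ?_⟩, hKP, hPQ⟩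
  · intro i
    exact mem_sphere_zero_iff_norm.1 (hb' (ht i))
  · intro i j hij _
    exact t.equivFin.symm.injective (Subtype.ext hij)
  · exact hQc.of_isClosed_subset hclosed hPQ
  · exact ⟨0, interior_mono hKP h0⟩

end Pool.Agent.TH873.HH

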